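import Pool.Agent.H20.ER3.Lib

/-!
Row C7 of the board er3_modules (MP_816b90_co).
-/

set_option autoImplicit false

open Pool.Agent.H48.ER Pool.Agent.H52.ER2 Pool.Agent.H66.ER2 Pool.Agent.H20.ER3

namespace Pool.Agent.H3.ER3

theorem pf_C7 (hPX : U_PX) (hPZ : U_PZ) (hGE : U_GE) : U_C7 := by
  intro V H R n g l hev hpi hodd h0 hl
  have key : ∀ i j : Fin 3, i ≠ 0 → j ≠ 0 → i ≠ j → Odd (l i) := by
    intro i j hi hj hij
    obtain ⟨l1, l2, l3, l4, l5⟩ := hl i hi
    by_cases he : l i = n i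
    · rw [he]
      exact hodd i
    · have hp := hPZ _ (MG H R) n g i j 0 (l i) (n j) hpi hij hi hj (by omega) (hpi.pos j) le_rfl
      have hE := hGE V H R _ _ _ _ hev hp (by omega) l4 (hl j hj).2.2.2.2 (by
        rintro w ((⟨k, -, hk, rfl⟩ | ⟨k, -, hk, rfl⟩) | ⟨k, hk1, hk2, rfl⟩)
        · by_cases hkl : k = l i
          · rw [hkl]
            exact Or.inl rfl
          · exact Or.inr (Or.inr (l3 k (by omega)))
        · exact Or.inr (Or.inr (h0 k hk))
        · have : k = n j := by omega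
          rw [this]
          exact Or.inr (Or.inl rfl))
      have ho := hodd 0
      rw [Nat.odd_iff] at ho ⊢
      rw [Nat.even_iff] at hE
      omega
  intro i hi
  obtain ⟨j, hj, hij⟩ : ∃ j : Fin 3, j ≠ 0 ∧ i ≠ j := by
    fin_cases i
    · exact absurd rfl hi
    · exact ⟨2, by decide, by decide⟩
    · exact ⟨1, by decide, by decide⟩
  by_contra hne
  obtain ⟨l1, l2, l3, l4, l5⟩ := hl i hi
  obtain ⟨m1, m2, m3, m4, m5⟩ := hl j hj
  have hp := hPX _ (MG H R) n g i j (l i) (l j) hpi hij l2 m2 (fun h => hne h.1)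
  have hE := hGE V H R _ _ _ _ hev hp (by omega) l4 m4 (by
    rintro w (⟨k, -, hk, rfl⟩ | ⟨k, -, hk, rfl⟩)
    · by_cases hkl : k = l i
      · rw [hkl]
        exact Or.inl rfl
      · exact Or.inr (Or.inr (l3 k (by omega)))
    · by_cases hkl : k = l j
      · rw [hkl]
        exact Or.inr (Or.inl rfl)
      · exact Or.inr (Or.inr (m3 k (by omega))))
  have h1 := key i j hi hj hij
  have h2 := key j i hj hi (Ne.symm hij)
  rw [Nat.odd_iff] at h1 h2
  rw [Nat.even_iff] at hE
  omega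

end Pool.Agent.H3.ER3
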