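import Pool.Agent.H20.ER3.Lib

/-!
Row D2 of the board er3_modules (MP_816b90_co).
-/

set_option autoImplicit false
set_option linter.unusedVariables false

open Pool.Agent.H48.ER Pool.Agent.H52.ER2 Pool.Agent.H66.ER2 Pool.Agent.H20.ER3

namespace Pool.Agent.H3.ER3

theorem fin3 : ∀ a i j : Fin 3, i ≠ 0 → j ≠ 0 → i ≠ j → a ≠ i → a = 0 ∨ a = j := by decide

theorem core {V : Type} {G : SimpleGraph V} {R : Set V} {p q : V} {n : Fin 3 → ℕ}
    {g : Fin 3 → ℕ → V} (hPX : U_PX) (hN : NOH G) (hE : EvS G R) (hp : p ∉ R) (hq : q ∉ R)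
    (hev : EvP G p q) (hpi : PI (ctr G p q) n g) (ho : ∀ i, Odd (n i)) (i j : Fin 3)
    (hi : i ≠ 0) (hj : j ≠ 0) (hij : i ≠ j) (hbj : g j (n j) ∉ R) (hgp : g i (n i) = p)
    (hR : ∀ a k, k ≤ n a → (a ≠ 0 → k < n a) → g a k ∈ R)
    (hD : ∀ z, z = p ∨ z = q → ∃ a l, l ≤ n a ∧ (ctr G p q).Adj p (g a l) ∧ ¬ G.Adj z (g a l)) :
    False := by
  have hni := hpi.pos i
  have hnj := hpi.pos j
  have hn0 := hpi.pos 0
  have hnq : ∀ a k, k ≤ n a → g a k ≠ q := by
    intro a k hk e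
    by_cases hk0 : k = 0
    · have h1 := hpi.pos a
      have h2 : (ctr G p q).Adj (g a k) (g a 1) :=
        (hpi.adj a a k 1 hk h1).2 (Or.inl ⟨rfl, Or.inl (by omega)⟩)
      rw [e] at h2
      exact ctr_not_adj h2
    · have h2 : (ctr G p q).Adj (g a k) (g a (k - 1)) :=
        (hpi.adj a a k (k - 1) hk (by omega)).2 (Or.inl ⟨rfl, Or.inr (by omega)⟩)
      rw [e] at h2
      exact ctr_not_adj h2
  have hnp : ∀ a k, k ≤ n a → ¬ (a = i ∧ k = n i) → g a k ≠ p := by
    intro a k hk hne e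
    rw [← hgp] at e
    exact hne (hpi.inj a i k (n i) hk le_rfl e)
  have hGG : ∀ a k b l, k ≤ n a → l ≤ n b → ¬ (a = i ∧ k = n i) → ¬ (b = i ∧ l = n i) →
      ((ctr G p q).Adj (g a k) (g b l) ↔ G.Adj (g a k) (g b l)) := by
    intro a k b l hk hl h1 h2
    exact ctr_adj_of_ne (hnp a k hk h1) (hnq a k hk) (hnp b l hl h2) (hnq b l hl)
  have hpa : ∀ a l, l ≤ n a → (ctr G p q).Adj p (g a l) →
      (a = i ∧ l + 1 = n i) ∨ (a ≠ i ∧ l = n a) := by
    intro a l hl h0
    have h : (ctr G p q).Adj (g i (n i)) (g a l) := by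
      rw [hgp]
      exact h0
    rcases (hpi.adj i a (n i) l le_rfl hl).1 h with ⟨rfl, h1 | h1⟩ | ⟨h1, h2 | h2⟩
    · omega
    · exact Or.inl ⟨rfl, h1⟩
    · omega
    · exact Or.inr ⟨h1.symm, h2.2⟩
  have hpf : (ctr G p q).Adj p (g i (n i - 1)) := by
    have := (hpi.adj i i (n i) (n i - 1) le_rfl (by omega)).2 (Or.inl ⟨rfl, Or.inr (by omega)⟩)
    rw [hgp] at this
    exact this
  obtain ⟨z, hz, hzf⟩ : ∃ z, (z = p ∨ z = q) ∧ G.Adj z (g i (n i - 1)) := by
    rcases (ctr_adj_left (hnp i (n i - 1) (by omega) (by omega)) (hnq i (n i - 1) (by omega))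
      hev.1).1 hpf with h | h
    · exact ⟨p, Or.inl rfl, h⟩
    · exact ⟨q, Or.inr rfl, h⟩
  have hzR : z ∉ R := by
    rcases hz with rfl | rfl
    · exact hp
    · exact hq
  have hzne : ∀ a k, k ≤ n a → ¬ (a = i ∧ k = n i) → z ≠ g a k := by
    intro a k hk hne e
    rcases hz with rfl | rfl
    · exact hnp a k hk hne e.symm
    · exact hnq a k hk e.symm
  have hzn : ∀ a l, l ≤ n a → ¬ (a = i ∧ l = n i) → G.Adj z (g a l) →
      (a = i ∧ l + 1 = n i) ∨ (a ≠ i ∧ l = n a) := by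
    intro a l hl hne h
    refine hpa a l hl ((ctr_adj_left (hnp a l hl hne) (hnq a l hl) hev.1).2 ?_)
    rcases hz with rfl | rfl
    · exact Or.inl h
    · exact Or.inr h
  -- the path
  have hpath : ∀ m, m ≠ i → ¬ G.Adj z (g m (n m)) →
      IP G ((n i - 1) + 1 + n m + 1) z (g m (n m))
        (insert z (seg (g i) 0 (n i - 1) ∪ seg (g m) 0 (n m))) := by
    intro m hm hnz
    have h1 := hPX _ (ctr G p q) n g i m (n i - 1) (n m) hpi hm.symm (by omega) le_rfl (by omega)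
    have h2 : IP G ((n i - 1) + 1 + n m) (g i (n i - 1)) (g m (n m))
        (seg (g i) 0 (n i - 1) ∪ seg (g m) 0 (n m)) := by
      refine h1.congr ?_
      have key : ∀ u ∈ seg (g i) 0 (n i - 1) ∪ seg (g m) 0 (n m),
          ∃ a k, k ≤ n a ∧ ¬ (a = i ∧ k = n i) ∧ u = g a k := by
        rintro u (⟨k, -, hk, rfl⟩ | ⟨k, -, hk, rfl⟩)
        · exact ⟨i, k, by omega, by omega, rfl⟩
        · exact ⟨m, k, hk, fun h => hm h.1, rfl⟩
      intro u hu v hv
      obtain ⟨a, k, hk, hak, rfl⟩ := key u hu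
      obtain ⟨b, l, hl, hbl, rfl⟩ := key v hv
      exact (hGG a k b l hk hl hak hbl).symm
    refine h2.cons ?_ ?_
    · rintro (⟨k, -, hk, e⟩ | ⟨k, -, hk, e⟩)
      · exact hzne i k (by omega) (by omega) e.symm
      · exact hzne m k hk (fun h => hm h.1) e.symm
    · rintro w (⟨k, -, hk, rfl⟩ | ⟨k, -, hk, rfl⟩)
      · constructor
        · intro h
          rcases hzn i k (by omega) (by omega) h with ⟨-, h3⟩ | ⟨h3, -⟩
          · have : k = n i - 1 := by omega
            rw [this]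
          · exact absurd rfl h3
        · intro h
          rw [h]
          exact hzf
      · constructor
        · intro h
          rcases hzn m k hk (fun h => hm h.1) h with ⟨h3, -⟩ | ⟨-, h3⟩
          · exact absurd h3 hm
          · rw [h3] at h
            exact absurd h hnz
        · intro h
          exact absurd (hpi.inj m i k (n i - 1) hk (by omega) h).1 hm
  have o1 := ho i
  have o2 := ho j
  have o3 := ho 0
  rw [Nat.odd_iff] at o1 o2 o3
  have hzb : G.Adj z (g j (n j)) := by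
    by_contra hnz
    have h1 := hE _ _ _ _ (hpath j hij.symm hnz) hzR hbj (by omega) (by
      rintro w (rfl | ⟨k, -, hk, rfl⟩ | ⟨k, -, hk, rfl⟩)
      · exact Or.inl rfl
      · exact Or.inr (Or.inr (hR i k (by omega) (fun _ => by omega)))
      · by_cases hkj : k = n j
        · rw [hkj]
          exact Or.inr (Or.inl rfl)
        · exact Or.inr (Or.inr (hR j k hk (fun _ => by omega))))
    rw [Nat.even_iff] at h1
    omega
  have hz0 : ¬ G.Adj z (g 0 (n 0)) := by
    intro h0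
    obtain ⟨a, l, hl, h1, h2⟩ := hD z hz
    rcases hpa a l hl h1 with ⟨rfl, h3⟩ | ⟨h3, rfl⟩
    · have : l = n a - 1 := by omega
      rw [this] at h2
      exact h2 hzf
    · have h4 : a = 0 ∨ a = j := fin3 a i j hi hj hij h3
      rcases h4 with rfl | rfl
      · exact h2 h0
      · exact h2 hzb
  have h1 := hN _ _ _ (g j (n j)) _ (hpath 0 hi.symm hz0) (by omega) (by
      rintro (e | ⟨k, -, hk, e⟩ | ⟨k, -, hk, e⟩)
      · exact hzne j (n j) le_rfl (fun h => hij h.1.symm) e.symm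
      · exact hij (hpi.inj i j k (n j) (by omega) le_rfl e).1
      · exact hj (hpi.inj 0 j k (n j) hk le_rfl e).1.symm) hzb.symm
    ((hGG j (n j) 0 (n 0) le_rfl le_rfl (fun h => hij h.1.symm) (fun h => hi h.1.symm)).1
      ((hpi.adj j 0 (n j) (n 0) le_rfl le_rfl).2 (Or.inr ⟨hj, Or.inr ⟨rfl, rfl⟩⟩))) (by
      rintro w (rfl | ⟨k, -, hk, rfl⟩ | ⟨k, -, hk, rfl⟩) h
      · exact Or.inl rfl
      · exfalso
        have h2 := (hGG j (n j) i k le_rfl (by omega) (fun h => hij h.1.symm) (by omega)).2 h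
        rcases (hpi.adj j i (n j) k le_rfl (by omega)).1 h2 with ⟨h3, -⟩ | ⟨-, h3 | h3⟩
        · exact hij h3.symm
        · omega
        · omega
      · have h2 := (hGG j (n j) 0 k le_rfl hk (fun h => hij h.1.symm) (fun h => hi h.1.symm)).2 h
        rcases (hpi.adj j 0 (n j) k le_rfl hk).1 h2 with ⟨h3, -⟩ | ⟨-, h3 | h3⟩
        · exact absurd h3 hj
        · omega
        · rw [h3.2]
          exact Or.inr rfl)
  rw [Nat.even_iff] at h1
  omega

theorem pf_D2 (hD0 : U_D0) (hPX : U_PX) (hPY : U_PY) (hHOL : T_HOL) : U_D2 := by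
  intro V G R p q n g hN hO hE hp hq hev hpi ho h1 h2 hR
  obtain ⟨i, k, hk, hgp, hD⟩ := hD0 V G p q n g hO hpi ho
  have hi : ¬ (i ≠ 0 → k < n i) := fun h => hp (hgp ▸ hR i k hk h)
  push Not at hi
  obtain ⟨hi0, hik⟩ := hi
  have hkk : k = n i := by omega
  subst hkk
  have h3 : i = 1 ∨ i = 2 := by
    fin_cases i
    · exact absurd rfl hi0
    · exact Or.inl rfl
    · exact Or.inr rfl
  rcases h3 with rfl | rfl
  · exact core hPX hN hE hp hq hev hpi ho 1 2 (by decide) (by decide) (by decide) h2 hgp hR hD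
  · exact core hPX hN hE hp hq hev hpi ho 2 1 (by decide) (by decide) (by decide) h1 hgp hR hD

end Pool.Agent.H3.ER3
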